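import Mathlib
import Pool.Agent.Helper404.ST9
import Pool.Agent.H118W.PartB

/-!
Real numbers whose exponent `w` equals `1`, or is close to `1`.
-/

set_option autoImplicit false

open Polynomial Filter

namespace Pool.Agent.Results.MP_a0d2f7_nt.MahlerOne

/-- The height of an integer polynomial: the maximum absolute value of its coefficients. -/
def height (P : ℤ[X]) : ℕ := P.support.sup fun i => (P.coeff i).natAbs

/-- `w_n(ξ)`: the supremum of the real `w ≥ 0` such that `0 < |P(ξ)| ≤ H(P)^(-w)` for infinitely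
many integer polynomials `P` of degree at most `n`. -/
noncomputable def wn (n : ℕ) (ξ : ℝ) : ENNReal :=
  ⨆ w ∈ {w : ℝ | 0 ≤ w ∧ {P : ℤ[X] | P.natDegree ≤ n ∧ 0 < |aeval ξ P| ∧
    |aeval ξ P| ≤ (height P : ℝ) ^ (-w)}.Infinite}, ENNReal.ofReal w

/-- `w_n^*(ξ)`: the supremum of the real `w ≥ 0` such that `0 < |ξ - α| ≤ H(α)^(-w-1)` for
infinitely many real algebraic `α` of degree at most `n`; `Q` is the minimal polynomial of `α`
over `ℤ` (up to sign), that is, an irreducible element of `ℤ[X]` with root `α`. -/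
noncomputable def wnStar (n : ℕ) (ξ : ℝ) : ENNReal :=
  ⨆ w ∈ {w : ℝ | 0 ≤ w ∧ {α : ℝ | ∃ Q : ℤ[X], Irreducible Q ∧ Q.natDegree ≤ n ∧ aeval α Q = 0 ∧
    0 < |ξ - α| ∧ |ξ - α| ≤ (height Q : ℝ) ^ (-w - 1)}.Infinite}, ENNReal.ofReal w

/-- `w(ξ) = limsup w_n(ξ) / n`. -/
noncomputable def w (ξ : ℝ) : ENNReal := limsup (fun n : ℕ => wn n ξ / n) atTop

/-- `w^*(ξ) = limsup w_n^*(ξ) / n`. -/
noncomputable def wStar (ξ : ℝ) : ENNReal := limsup (fun n : ℕ => wnStar n ξ / n) atTop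

/-- If `w(ξ) < 1 + ε`, the polynomial inequality with exponent `(1 + ε) n` has finitely many
solutions for large `n`. -/
theorem finite_of_lt (ξ ε : ℝ) (hε : 0 < ε) (h : w ξ < ENNReal.ofReal (1 + ε)) :
    ∃ N : ℕ, ∀ n : ℕ, N ≤ n → {P : ℤ[X] | P.natDegree ≤ n ∧ aeval ξ P ≠ 0 ∧
      |aeval ξ P| ≤ (Pool.Agent.Helper404.HP P : ℝ) ^ (-((1 + ε) * (n : ℝ)))}.Finite := by
  have h1 : ∀ᶠ n : ℕ in atTop, wn n ξ / n < ENNReal.ofReal (1 + ε) := eventually_lt_of_limsup_lt h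
  obtain ⟨N, hN⟩ := eventually_atTop.1 h1
  refine ⟨max N 1, fun n hn => ?_⟩
  have hn1 : 1 ≤ n := (le_max_right _ _).trans hn
  have h2 := hN n ((le_max_left _ _).trans hn)
  by_contra hinf
  have h3 : ENNReal.ofReal ((1 + ε) * n) ≤ wn n ξ := by
    refine le_iSup₂_of_le ((1 + ε) * n) ⟨by positivity, ?_⟩ le_rfl
    refine (show Set.Infinite _ from hinf).mono ?_
    rintro P ⟨h1, h2, h3⟩
    exact ⟨h1, abs_pos.2 h2, h3⟩
  have hn0 : (n : ENNReal) ≠ 0 := by exact_mod_cast (by omega : n ≠ 0)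
  have h4 : ENNReal.ofReal (1 + ε) ≤ wn n ξ / n := by
    rw [ENNReal.le_div_iff_mul_le (Or.inl hn0) (Or.inl (ENNReal.natCast_ne_top n))]
    rwa [ENNReal.ofReal_mul (by positivity), ENNReal.ofReal_natCast] at h3
  exact absurd h2 (not_lt.2 h4)

/-- lower bound for `w^*` when `w` is close to `1` -/
theorem wStar_ge (ξ : ℝ) (hξ : Transcendental ℤ ξ) (e : ℝ) (he : 0 < e) (he1 : e ≤ 1)
    (h : w ξ < ENNReal.ofReal (1 + (e / 40) ^ 2)) : ENNReal.ofReal (1 - e) ≤ wStar ξ := by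
  have hyp := finite_of_lt ξ ((e / 40) ^ 2) (by positivity) h
  refine le_limsup_of_frequently_le ?_
  rw [frequently_atTop]
  intro N0
  obtain ⟨n, hn, hinf⟩ := Pool.Agent.H118W.part_b' ξ hξ e he he1 hyp (max N0 1)
  have hn1 : 1 ≤ n := (le_max_right _ _).trans hn
  refine ⟨n, (le_max_left _ _).trans hn, ?_⟩
  have hn0 : (n : ENNReal) ≠ 0 := by exact_mod_cast (by omega : n ≠ 0)
  rw [ENNReal.le_div_iff_mul_le (Or.inl hn0) (Or.inl (ENNReal.natCast_ne_top n)),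
    ← ENNReal.ofReal_natCast n, ← ENNReal.ofReal_mul (by linarith)]
  refine le_iSup₂_of_le ((1 - e) * n) ⟨mul_nonneg (by linarith) (Nat.cast_nonneg n), ?_⟩ le_rfl
  refine hinf.mono ?_
  rintro α ⟨Q, h1, h2, h3, h4, h5⟩
  refine ⟨Q, h1, h2, h3, abs_pos.2 (sub_ne_zero.2 (Ne.symm h4)), ?_⟩
  have h6 : -((1 - e) * (n : ℝ)) - 1 = -((1 - e) * (n : ℝ) + 1) := by ring
  rw [h6]
  exact h5

/-- Let `ξ` be a transcendental real number.
(1) If `w(ξ) = 1` then `w^*(ξ) = 1`.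
(2) If `0 < e ≤ 1` and `w(ξ) < 1 + (e/40)²` then `w^*(ξ) ≥ 1 - e`. -/
theorem result (ξ : ℝ) (hξ : Transcendental ℤ ξ) :
    (w ξ = 1 → wStar ξ = 1) ∧
    (∀ e : ℝ, 0 < e → e ≤ 1 → w ξ < ENNReal.ofReal (1 + (e / 40) ^ 2) →
      ENNReal.ofReal (1 - e) ≤ wStar ξ) := by
  refine ⟨fun h => le_antisymm ?_ ?_, fun e he he1 h => wStar_ge ξ hξ e he he1 h⟩
  · -- upper bound
    have hyp : ∀ ε : ℝ, 0 < ε → ∃ N : ℕ, ∀ n : ℕ, N ≤ n → {P : ℤ[X] | P.natDegree ≤ n ∧
        aeval ξ P ≠ 0 ∧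
        |aeval ξ P| ≤ (Pool.Agent.Helper404.HP P : ℝ) ^ (-((1 + ε) * (n : ℝ)))}.Finite := by
      intro ε hε
      refine finite_of_lt ξ ε hε ?_
      rw [h, ← ENNReal.ofReal_one, ENNReal.ofReal_lt_ofReal_iff (by linarith)]
      linarith
    refine ENNReal.le_of_forall_pos_le_add fun ε hε _ => ?_
    have hεR : (0 : ℝ) < (ε : ℝ) := hε
    obtain ⟨N, hN⟩ := Pool.Agent.Helper404.part_a ξ hξ hyp ε hεR
    refine limsup_le_of_le (h := ?_)
    rw [eventually_atTop]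
    refine ⟨max N 1, fun n hn => ?_⟩
    have hn1 : 1 ≤ n := (le_max_right _ _).trans hn
    have hfin := hN n ((le_max_left _ _).trans hn)
    have hn0 : (n : ENNReal) ≠ 0 := by exact_mod_cast (by omega : n ≠ 0)
    have h1 : wnStar n ξ ≤ ENNReal.ofReal ((1 + (ε : ℝ)) * n) := by
      refine iSup₂_le ?_
      rintro v ⟨hv0, hv⟩
      apply ENNReal.ofReal_le_ofReal
      by_contra hlt
      rw [not_le] at hlt
      apply hv
      refine hfin.subset ?_
      rintro α ⟨Q, h1, h2, h3, h4, h5⟩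
      refine ⟨Q, h1, h2, h3, ?_, h5.trans ?_⟩
      · intro h6
        rw [h6, sub_self, abs_zero] at h4
        exact lt_irrefl _ h4
      · have hH : (1 : ℝ) ≤ (height Q : ℝ) := by
          exact_mod_cast Pool.Agent.Helper404.HP_pos h1.ne_zero
        exact Real.rpow_le_rpow_of_exponent_le hH (by linarith)
    rw [ENNReal.div_le_iff_le_mul (Or.inl hn0) (Or.inl (ENNReal.natCast_ne_top n))]
    refine h1.trans (le_of_eq ?_)
    rw [ENNReal.ofReal_mul (by positivity), ENNReal.ofReal_natCast,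
      ENNReal.ofReal_add zero_le_one hεR.le, ENNReal.ofReal_one, ENNReal.ofReal_coe_nnreal]
  · -- lower bound
    refine ENNReal.le_of_forall_pos_le_add fun ε hε _ => ?_
    have hεR : (0 : ℝ) < (ε : ℝ) := hε
    have he : (0 : ℝ) < min (ε : ℝ) 1 := lt_min hεR one_pos
    have h1 : ENNReal.ofReal (1 - min (ε : ℝ) 1) ≤ wStar ξ := by
      refine wStar_ge ξ hξ _ he (min_le_right _ _) ?_
      rw [h, ← ENNReal.ofReal_one, ENNReal.ofReal_lt_ofReal_iff (by positivity)]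
      have : 0 < (min (ε : ℝ) 1 / 40) ^ 2 := by positivity
      linarith
    calc (1 : ENNReal) = ENNReal.ofReal (1 - min (ε : ℝ) 1) + ENNReal.ofReal (min (ε : ℝ) 1) := by
          rw [← ENNReal.ofReal_add (by linarith [min_le_right (ε : ℝ) 1]) he.le, sub_add_cancel,
            ENNReal.ofReal_one]
      _ ≤ wStar ξ + ε := by
          refine add_le_add h1 ?_
          rw [← ENNReal.ofReal_coe_nnreal]
          exact ENNReal.ofReal_le_ofReal (min_le_left _ _)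

end Pool.Agent.Results.MP_a0d2f7_nt.MahlerOne
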